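import Mathlib

namespace Pool.Agent.Results.MP_f30851_co.Half

open Finset

variable {G : Type} [AddCommGroup G] [Fintype G] [DecidableEq G]

/-- Convolution of two weight functions on a finite abelian group. -/
def conv (p q : G → ℝ) (k : G) : ℝ := ∑ x, p x * q (k - x)

/-- The `m`-fold convolution power: the law of the sum of `m` independent tosses with law `p`. -/
def cpow (p : G → ℝ) : ℕ → G → ℝ
  | 0 => fun k => if k = 0 then 1 else 0
  | m + 1 => conv p (cpow p m)

lemma conv_assoc (p q r : G → ℝ) : conv (conv p q) r = conv p (conv q r) := by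
  funext k
  simp only [conv, sum_mul, mul_sum]
  rw [sum_comm]
  refine sum_congr rfl fun y _ => ?_
  rw [← Equiv.sum_comp (Equiv.addRight y)]
  refine sum_congr rfl fun z _ => ?_
  simp only [Equiv.coe_addRight, add_sub_cancel_right, mul_assoc]
  congr 3
  abel

lemma cpow_add (p : G → ℝ) (a b : ℕ) : cpow p (a + b) = conv (cpow p a) (cpow p b) := by
  induction a with
  | zero => funext k; simp [conv, cpow]
  | succ a ih => rw [Nat.add_right_comm, cpow, ih, cpow, conv_assoc]

lemma cpow_nonneg (p : G → ℝ) (hp : ∀ x, 0 ≤ p x) (m : ℕ) (k : G) : 0 ≤ cpow p m k := by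
  induction m generalizing k with
  | zero => simp only [cpow]; split_ifs <;> norm_num
  | succ m ih => exact sum_nonneg fun x _ => mul_nonneg (hp x) (ih _)

lemma cpow_sum (p : G → ℝ) (hs : ∑ x, p x = 1) (m : ℕ) : ∑ k, cpow p m k = 1 := by
  induction m with
  | zero => simp [cpow]
  | succ m ih =>
    simp only [cpow, conv]
    rw [sum_comm, ← hs]
    refine sum_congr rfl fun x _ => ?_
    have h : ∑ k, cpow p m (k - x) = 1 := (Equiv.sum_comp (Equiv.subRight x) (cpow p m)).trans ih
    rw [← mul_sum, h, mul_one]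

lemma bound (p : G → ℝ) (hp : ∀ x, 0 ≤ p x) (hs : ∑ x, p x = 1) (b a : ℕ) :
    ∀ k : G, (∀ x : G, 2 ^ a • x ≠ k) → cpow p (2 ^ a * b) k ≤ 1 / 2 := by
  induction a with
  | zero => intro k hk; exact absurd (by simp) (hk k)
  | succ a ih =>
    intro k hk
    rw [pow_succ, mul_right_comm, mul_two, cpow_add]
    have h0 := cpow_nonneg p hp (2 ^ a * b)
    have h1 := cpow_sum p hs (2 ^ a * b)
    generalize cpow p (2 ^ a * b) = q at ih h0 h1
    have h2 : ∑ x, q (k - x) = 1 := (Equiv.sum_comp (Equiv.subLeft k) q).trans h1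
    have h3 : ∀ x, q x * q (k - x) ≤ (q x + q (k - x)) / 4 := by
      intro x
      by_cases e : x = k - x
      · rw [← e]
        have h4 := ih x (fun y hy => hk y (by
          rw [pow_succ, mul_nsmul, hy, two_nsmul]
          exact (eq_sub_iff_add_eq.1 e)))
        nlinarith [h0 x]
      · have h4 : ∑ y ∈ ({x, k - x} : Finset G), q y ≤ ∑ y, q y :=
          sum_le_sum_of_subset_of_nonneg (subset_univ _) fun y _ _ => h0 y
        rw [sum_pair e, h1] at h4
        nlinarith [h0 x, h0 (k - x), sq_nonneg (q x - q (k - x))]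
    calc conv q q k ≤ ∑ x, (q x + q (k - x)) / 4 := sum_le_sum fun x _ => h3 x
      _ = 1 / 2 := by rw [← sum_div, sum_add_distrib, h1, h2]; norm_num

lemma attain (h : G) (h0 : h ≠ 0) (h2 : h + h = 0) (m : ℕ) (k : G) :
    cpow (fun x => (if x = 0 then 1 / 2 else 0) + (if x = h then 1 / 2 else 0 : ℝ)) (m + 1) k
      = (if k = 0 then 1 / 2 else 0) + (if k = h then 1 / 2 else 0 : ℝ) := by
  induction m generalizing k with
  | zero => simp [cpow, conv, sub_eq_zero]
  | succ m ih =>
    rw [cpow, conv]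
    simp only [ih, add_mul, sum_add_distrib, ite_mul, zero_mul, sum_ite_eq', mem_univ, if_true,
      sub_zero, sub_eq_zero, sub_eq_iff_eq_add, h2, zero_add, add_zero]
    split_ifs <;> norm_num

theorem result (n : ℕ) [NeZero n] (hn : Even n) :
    IsGreatest {v : ℝ | ∃ p : ZMod n → ℝ, (∀ x, 0 ≤ p x) ∧ ∑ x, p x = 1 ∧
      v = cpow p n ((n / 2 : ℕ) : ZMod n)} (1 / 2) := by
  have hn0 : n ≠ 0 := NeZero.ne n
  obtain ⟨m, hm⟩ := hn
  have e : n / 2 = m := by omega
  rw [e]
  constructor
  · have h0 : ((m : ℕ) : ZMod n) ≠ 0 := by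
      rw [Ne, ZMod.natCast_eq_zero_iff]
      intro hd
      have := Nat.le_of_dvd (by omega) hd
      omega
    have h2 : ((m : ℕ) : ZMod n) + m = 0 := by
      rw [← Nat.cast_add, ← hm, ZMod.natCast_self]
    refine ⟨fun x => (if x = 0 then 1 / 2 else 0) + (if x = (m : ZMod n) then 1 / 2 else 0),
      fun x => ?_, ?_, ?_⟩
    · simp only
      split_ifs <;> norm_num
    · simp [sum_add_distrib]; norm_num
    · have := attain _ h0 h2 (n - 1) (m : ZMod n)
      rw [show n - 1 + 1 = n by omega] at this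
      rw [this]; simp [h0]
  · rintro v ⟨p, hp, hs, rfl⟩
    obtain ⟨a, b, hb, hab⟩ := Nat.exists_eq_two_pow_mul_odd hn0
    have := bound p hp hs b a (m : ZMod n) (fun x hx => by
      obtain ⟨y, rfl⟩ := ZMod.natCast_zmod_surjective x
      rw [nsmul_eq_mul, ← Nat.cast_mul, ZMod.natCast_eq_natCast_iff] at hx
      have h1 : 2 ^ a ∣ n := ⟨b, hab⟩
      have h2 := (hx.of_dvd h1).symm
      have h3 : 2 ^ a ∣ m := (h2.dvd_iff (dvd_refl _)).2 (Dvd.intro _ rfl)
      obtain ⟨c, hc⟩ := h3
      have h4 : 2 ^ a * b = 2 ^ a * (c + c) := by rw [mul_add, ← hc, ← hab, hm]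
      have h5 := Nat.eq_of_mul_eq_mul_left (by positivity) h4
      obtain ⟨d, hd⟩ := hb
      omega)
    rwa [← hab] at this

end Pool.Agent.Results.MP_f30851_co.Half
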